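import Mathlib
import Pool.Agent.H.MP_93dabc_an.A

open MeasureTheory Set Cardinal

namespace Pool.Agent.H.MP_de1370_an
open Pool.Agent.H.MP_93dabc_an

lemma avoid {I J Γ : Type} (e : J → Γ) (he : Function.Injective e) (Δ : I → Set Γ)
    (hΔ : ∀ i, (Δ i).Countable) (h1 : #I < #J) (h2 : ℵ₀ < #J) : ∃ j, ∀ i, e j ∉ Δ i := by
  by_contra! h
  have h3 : (⋃ i, e ⁻¹' Δ i) = Set.univ := eq_univ_of_forall fun j => mem_iUnion.2 (h j)
  have h4 : #(⋃ i, e ⁻¹' Δ i) ≤ #I * ℵ₀ := by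
    refine (mk_iUnion_le _).trans (mul_le_mul_right ?_ _)
    exact ciSup_le' fun i => le_aleph0_iff_set_countable.2 ((hΔ i).preimage he)
  rw [h3, mk_univ] at h4
  exact absurd (mul_lt_of_lt h2.le h1 h2) (not_lt.2 h4)

abbrev G : Type := ℝ ⊕ Set ℝ ⊕ Set (Set ℝ)

lemma free (Δ : G → Set G) (hΔ : ∀ i, (Δ i).Countable) : ∃ a b c : G, a ≠ b ∧ a ≠ c ∧ b ≠ c ∧
    b ∉ Δ a ∧ c ∉ Δ a ∧ a ∉ Δ b ∧ c ∉ Δ b ∧ a ∉ Δ c ∧ b ∉ Δ c := by
  have k0 : ℵ₀ < #ℝ := by simp [aleph0_lt_continuum]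
  have k1 : #ℝ < #(Set ℝ) := by rw [mk_set]; exact cantor _
  have k2 : #(Set ℝ) < #(Set (Set ℝ)) := by rw [mk_set (α := Set ℝ)]; exact cantor _
  obtain ⟨c, hc⟩ := avoid (I := ℝ ⊕ Set ℝ) (fun c : Set (Set ℝ) => (Sum.inr (Sum.inr c) : G))
    (Sum.inr_injective.comp Sum.inr_injective)
    (fun i => Δ (Sum.elim Sum.inl (fun b => Sum.inr (Sum.inl b)) i)) (fun _ => hΔ _)
    (by
      rw [mk_sum, lift_id, lift_id]
      exact add_lt_of_lt ((k0.trans k1).trans k2).le (k1.trans k2) k2) ((k0.trans k1).trans k2)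
  obtain ⟨b, hb⟩ := avoid (I := ℝ) (fun b : Set ℝ => (Sum.inr (Sum.inl b) : G))
    (Sum.inr_injective.comp Sum.inl_injective)
    (fun i => Δ (Sum.inl i) ∪ Δ (Sum.inr (Sum.inr c))) (fun _ => (hΔ _).union (hΔ _)) k1
    (k0.trans k1)
  obtain ⟨a, ha⟩ := avoid (I := Unit) (fun a : ℝ => (Sum.inl a : G)) Sum.inl_injective
    (fun _ => Δ (Sum.inr (Sum.inl b)) ∪ Δ (Sum.inr (Sum.inr c))) (fun _ => (hΔ _).union (hΔ _))
    (by rw [mk_unit]; exact one_lt_aleph0.trans k0) k0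
  refine ⟨Sum.inl a, Sum.inr (Sum.inl b), Sum.inr (Sum.inr c), by simp, by simp, by simp,
    fun h => hb a (Or.inl h), hc (Sum.inl a), fun h => ha () (Or.inl h), hc (Sum.inr b),
    fun h => ha () (Or.inr h), fun h => hb a (Or.inr h)⟩

lemma cover {Γ : Type} (P : Set (Γ × Γ))
    (h : ∀ s ⊆ P, s.Pairwise (fun p q => p.1 ≠ q.1 ∧ p.2 ≠ q.2) → s.Countable) :
    ∃ Δ : Set Γ, Δ.Countable ∧ ∀ p ∈ P, p.1 ∈ Δ ∨ p.2 ∈ Δ := by
  obtain ⟨m, hm⟩ := zorn_subset {s | s ⊆ P ∧ s.Pairwise (fun p q => p.1 ≠ q.1 ∧ p.2 ≠ q.2)} (by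
    intro c hc hch
    refine ⟨⋃₀ c, ⟨sUnion_subset fun s hs => (hc hs).1, ?_⟩, fun s hs => subset_sUnion_of_mem hs⟩
    rintro p ⟨s, hs, hp⟩ q ⟨t, ht, hq⟩ hpq
    rcases hch.total hs ht with h1 | h1
    · exact (hc ht).2 (h1 hp) hq hpq
    · exact (hc hs).2 hp (h1 hq) hpq)
  have hc := h m hm.prop.1 hm.prop.2
  refine ⟨Prod.fst '' m ∪ Prod.snd '' m, (hc.image _).union (hc.image _), fun p hp => ?_⟩
  by_contra! hn
  have h1 : ∀ q ∈ m, p.1 ≠ q.1 ∧ p.2 ≠ q.2 := fun q hq =>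
    ⟨fun e => hn.1 (Or.inl ⟨q, hq, e.symm⟩), fun e => hn.2 (Or.inr ⟨q, hq, e.symm⟩)⟩
  have h2 : insert p m ⊆ m := hm.le_of_ge ⟨insert_subset hp hm.prop.1, by
    refine hm.prop.2.insert fun q hq _ => ⟨h1 q hq, (h1 q hq).1.symm, (h1 q hq).2.symm⟩⟩
    (subset_insert _ _)
  exact (h1 p (h2 (mem_insert _ _))).1 rfl

abbrev X : Type := lp (fun _ : G => ℝ) 2

def cwk (E : Type) [NormedAddCommGroup E] [NormedSpace ℝ E] : Set (Set E) :=
  {C | C.Nonempty ∧ Convex ℝ C ∧ IsCompact (toWeakSpace ℝ E '' C)}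

noncomputable def tri (x y z : X) : cwk X :=
  ⟨convexHull ℝ {x, y, z}, ⟨x, subset_convexHull ℝ _ (by simp)⟩, convex_convexHull ℝ _,
    ((toFinite _).isCompact_convexHull ℝ).image (toWeakSpaceCLM ℝ X).continuous⟩

lemma tri_hit (x y z : X) (φ : X →L[ℝ] ℝ) (a : ℝ) :
    ((tri x y z).1 ∩ {v | a < φ v}).Nonempty ↔ a < φ x ∨ a < φ y ∨ a < φ z := by
  constructor
  · rintro ⟨v, hv, h⟩
    by_contra! hn
    have : convexHull ℝ {x, y, z} ⊆ {v | φ v ≤ a} :=
      convexHull_min (by rintro _ (rfl | rfl | rfl); exacts [hn.1, hn.2.1, hn.2.2])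
        (convex_halfSpace_le φ.toLinearMap.isLinear a)
    have h5 : φ v ≤ a := this hv
    have h6 : a < φ v := h
    linarith
  · rintro (h | h | h) <;> exact ⟨_, subset_convexHull ℝ _ (by simp), h⟩

lemma tri_val (x y z : X) (φ : X →L[ℝ] ℝ) (a : ℝ) (h1 : φ x = a) (h2 : φ y = a) (h3 : φ z = a) :
    ∀ v ∈ (tri x y z).1, φ v = a :=
  convexHull_min (t := {v | φ v = a}) (by rintro _ (rfl | rfl | rfl); exacts [h1, h2, h3])
    (convex_hyperplane φ.toLinearMap.isLinear a)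

open Classical in
noncomputable def e (i : G) : X := lp.single 2 i 1

noncomputable def ev (i : G) : X →L[ℝ] ℝ := innerSL ℝ (e i)

lemma ev_e (i j : G) : ev i (e j) = if i = j then 1 else 0 := by
  simp only [ev, e, innerSL_apply_apply]
  rw [lp.inner_single_left]
  split_ifs with h
  · subst h; simp
  · simp [h]

lemma countable_ne (φ : X →L[ℝ] ℝ) : {i | φ (e i) ≠ 0}.Countable := by
  obtain ⟨v, rfl⟩ := (InnerProductSpace.toDual ℝ X).surjective φ
  have h1 : Summable fun i => ‖v i‖ ^ (2 : ENNReal).toReal := (lp.memℓp v).summable (by simp)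
  refine h1.countable_support.mono fun i hi => ?_
  simp only [mem_ofPred_eq, InnerProductSpace.toDual_apply_apply, e] at hi
  rw [lp.inner_single_right] at hi
  simpa using hi

abbrev Om : Type := (G × G) × Bool

instance : Uncountable Om :=
  (show Function.Injective (fun a : ℝ => ((Sum.inl a, Sum.inl a), true) : ℝ → Om) from
    fun a b h => by simpa using h).uncountable

lemma step (ψ : cwk X → X)
    (H : ∀ F : Om → cwk X, (∀ φ : X →L[ℝ] ℝ, φ ≠ 0 → ∀ a : ℝ,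
      MeasurableSet[cc Om] {t | ((F t).1 ∩ {x | a < φ x}).Nonempty}) →
      ∀ φ : X →L[ℝ] ℝ, Measurable[cc Om] fun t => φ (ψ (F t)))
    (S : cwk X) (T : G × G → cwk X) (χ : X →L[ℝ] ℝ)
    (hT : ∀ (φ : X →L[ℝ] ℝ) (a : ℝ) (p : G × G), φ (e p.1) = 0 → φ (e p.2) = 0 →
      (((T p).1 ∩ {v | a < φ v}).Nonempty ↔ (S.1 ∩ {v | a < φ v}).Nonempty)) :
    ∃ Δ : Set G, Δ.Countable ∧ ∀ p : G × G, p.1 ∉ Δ → p.2 ∉ Δ → χ (ψ (T p)) = χ (ψ S) := by
  classical
  obtain ⟨Δ, h1, h2⟩ := cover {p | χ (ψ (T p)) ≠ χ (ψ S)} (by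
    intro s hs hp
    by_contra hc
    let F : Om → cwk X := fun t => if t.1 ∈ s ∧ t.2 = true then T t.1 else S
    refine not_meas (c := χ (ψ S)) (A := (fun p => (p, true)) '' s) (B := range fun p => (p, false))
      ?_ ?_ ?_ ?_ (H F ?_ χ)
    · intro h
      exact hc (countable_of_injective_of_countable_image (fun a _ b _ h => by simpa using h) h)
    · intro h
      have h3 : Function.Injective
          (fun a : ℝ => ((Sum.inl a, Sum.inl a), false) : ℝ → Om) := fun a b h => by simpa using h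
      refine not_countable_univ (α := ℝ) ((h.preimage_of_injOn h3.injOn).mono fun a _ => ?_)
      exact mem_range_self (f := fun p : G × G => (p, false)) _
    · rintro _ ⟨p, hp, rfl⟩
      simp only [F, hp, and_self, if_true]
      exact hs hp
    · rintro _ ⟨p, rfl⟩
      simp [F]
    · intro φ _ a
      have c1 : (s ∩ {p | φ (e p.1) ≠ 0}).Countable := by
        refine countable_of_injective_of_countable_image (f := Prod.fst) ?_
          ((countable_ne φ).mono ?_)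
        · intro p hp' q hq' hpq
          by_contra hne
          exact (hp hp'.1 hq'.1 hne).1 hpq
        · rintro _ ⟨p, hp', rfl⟩; exact hp'.2
      have c2 : (s ∩ {p | φ (e p.2) ≠ 0}).Countable := by
        refine countable_of_injective_of_countable_image (f := Prod.snd) ?_
          ((countable_ne φ).mono ?_)
        · intro p hp' q hq' hpq
          by_contra hne
          exact (hp hp'.1 hq'.1 hne).2 hpq
        · rintro _ ⟨p, hp', rfl⟩; exact hp'.2
      have c3 := (c1.union c2).prod (countable_singleton true)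
      have key : ∀ t : Om, t ∉ (s ∩ {p | φ (e p.1) ≠ 0} ∪ s ∩ {p | φ (e p.2) ≠ 0}) ×ˢ {true} →
          (((F t).1 ∩ {v | a < φ v}).Nonempty ↔ (S.1 ∩ {v | a < φ v}).Nonempty) := by
        intro t ht
        by_cases hc : t.1 ∈ s ∧ t.2 = true
        · simp only [F, if_pos hc]
          refine hT φ a t.1 ?_ ?_
          · by_contra h; exact ht ⟨Or.inl ⟨hc.1, h⟩, hc.2⟩
          · by_contra h; exact ht ⟨Or.inr ⟨hc.1, h⟩, hc.2⟩
        · simp only [F, if_neg hc]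
      by_cases hS : (S.1 ∩ {v | a < φ v}).Nonempty
      · right
        refine c3.mono fun t ht => ?_
        by_contra h; exact ht ((key t h).2 hS)
      · left
        refine c3.mono fun t ht => ?_
        by_contra h; exact hS ((key t h).1 ht))
  refine ⟨Δ, h1, fun p a b => ?_⟩
  by_contra h
  rcases h2 p h with k | k
  exacts [a k, b k]

theorem main (ψ : cwk X → X) (hψ : ∀ C, ψ C ∈ C.1) : ∃ F : Om → cwk X,
    (∀ φ : X →L[ℝ] ℝ, φ ≠ 0 → ∀ a : ℝ,
      MeasurableSet[cc Om] {t | ((F t).1 ∩ {x | a < φ x}).Nonempty}) ∧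
      ¬ ∀ φ : X →L[ℝ] ℝ, Measurable[cc Om] fun t => φ (ψ (F t)) := by
  by_contra! H
  have s1 := fun i => step ψ H (tri (e i) 0 0) (fun p => tri (e i) (e p.1) (e p.2)) (ev i) (by
    intro φ a p h1 h2
    rw [tri_hit, tri_hit, h1, h2, map_zero])
  have s2 := fun i => step ψ H (tri (e i) 0 0)
    (fun p => tri (e i + e p.1) (e p.1 + e p.2) (e i + e p.2)) (ev i) (by
    intro φ a p h1 h2
    rw [tri_hit, tri_hit]
    simp only [map_add, h1, h2, map_zero, add_zero]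
    tauto)
  choose Δ1 c1 d1 using s1
  choose Δ2 c2 d2 using s2
  obtain ⟨a, b, c, ab, ac, bc, f1, f2, f3, f4, f5, f6⟩ :=
    free (fun i => Δ1 i ∪ Δ2 i) fun i => (c1 i).union (c2 i)
  simp only [mem_union, not_or] at f1 f2 f3 f4 f5 f6
  have a1 := d1 a (b, c) f1.1 f2.1
  have b1 := d1 b (a, c) f3.1 f4.1
  have g1 := d1 c (a, b) f5.1 f6.1
  have a2 := d2 a (b, c) f1.2 f2.2
  have b2 := d2 b (a, c) f3.2 f4.2
  have g2 := d2 c (a, b) f5.2 f6.2
  simp only at a1 b1 g1 a2 b2 g2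
  have p1 : tri (e b) (e a) (e c) = tri (e a) (e b) (e c) :=
    Subtype.ext (congrArg (convexHull ℝ) (by ext; simp; tauto))
  have p2 : tri (e c) (e a) (e b) = tri (e a) (e b) (e c) :=
    Subtype.ext (congrArg (convexHull ℝ) (by ext; simp; tauto))
  have p3 : tri (e b + e a) (e a + e c) (e b + e c) = tri (e a + e b) (e b + e c) (e a + e c) :=
    Subtype.ext (congrArg (convexHull ℝ) (by ext; simp [add_comm (e b) (e a)]; tauto))
  have p4 : tri (e c + e a) (e a + e b) (e c + e b) = tri (e a + e b) (e b + e c) (e a + e c) :=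
    Subtype.ext (congrArg (convexHull ℝ) (by
      ext; simp [add_comm (e c) (e a), add_comm (e c) (e b)]; tauto))
  rw [p1] at b1; rw [p2] at g1; rw [p3] at b2; rw [p4] at g2
  have v1 := tri_val (e a) (e b) (e c) (ev a + ev b + ev c) 1
    (by simp [ev_e, ab, ac, bc, ab.symm, ac.symm, bc.symm])
    (by simp [ev_e, ab, ac, bc, ab.symm, ac.symm, bc.symm])
    (by simp [ev_e, ab, ac, bc, ab.symm, ac.symm, bc.symm]) _ (hψ _)
  have v2 := tri_val (e a + e b) (e b + e c) (e a + e c) (ev a + ev b + ev c) 2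
    (by simp [ev_e, ab, ac, bc, ab.symm, ac.symm, bc.symm]; norm_num)
    (by simp [ev_e, ab, ac, bc, ab.symm, ac.symm, bc.symm]; norm_num)
    (by simp [ev_e, ab, ac, bc, ab.symm, ac.symm, bc.symm]; norm_num) _ (hψ _)
  simp only [add_apply] at v1 v2
  linarith

end Pool.Agent.H.MP_de1370_an
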